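import Mathlib

set_option autoImplicit false
open scoped NNReal InnerProductSpace Topology
open Filter

namespace Pool.Agent.Sx28.CS

/-- A contraction `C_0`-semigroup on the complex inner product space `H`. -/
structure ContractionSemigroup (H : Type*) [NormedAddCommGroup H] [InnerProductSpace ℂ H] where
  /-- the operators `T(t)`, `t ≥ 0` -/
  op : ℝ≥0 → H →L[ℂ] H
  map_zero : op 0 = ContinuousLinearMap.id ℂ H
  map_add : ∀ t s, op (t + s) = (op t).comp (op s)
  cont : ∀ x, Continuous fun t => op t x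
  contr : ∀ t, ‖op t‖ ≤ 1

variable {H : Type*} [NormedAddCommGroup H] [InnerProductSpace ℂ H]

namespace ContractionSemigroup

theorem zero_apply (T : ContractionSemigroup H) (x : H) : T.op 0 x = x := by
  rw [T.map_zero]; rfl

theorem add_apply (T : ContractionSemigroup H) (t s : ℝ≥0) (x : H) :
    T.op (t + s) x = T.op t (T.op s x) := by
  rw [T.map_add]; rfl

theorem norm_apply_le (T : ContractionSemigroup H) (t : ℝ≥0) (x : H) : ‖T.op t x‖ ≤ ‖x‖ := by
  calc ‖T.op t x‖ ≤ ‖T.op t‖ * ‖x‖ := (T.op t).le_opNorm x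
    _ ≤ 1 * ‖x‖ := by gcongr; exact T.contr t
    _ = ‖x‖ := one_mul _

end ContractionSemigroup

end Pool.Agent.Sx28.CS
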