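import Mathlib
import Pool.Agent.Sx28.CS.Defs

set_option autoImplicit false
open scoped NNReal InnerProductSpace Topology
open Filter

namespace Pool.Agent.Sx28.CS

variable {H : Type*} [NormedAddCommGroup H] [InnerProductSpace ℂ H] [CompleteSpace H]

/-- The kernel of the isometric dilation. -/
noncomputable def K (T : ContractionSemigroup H) : Matrix ℝ≥0 ℝ≥0 (H →L[ℂ] H) :=
  Matrix.of fun s t => (T.op (s - t)).adjoint ∘L T.op (t - s)

theorem K_inner (T : ContractionSemigroup H) (s t : ℝ≥0) (v w : H) :
    ⟪K T s t v, w⟫_ℂ = ⟪T.op (t - s) v, T.op (s - t) w⟫_ℂ := by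
  simp [K, ContinuousLinearMap.adjoint_inner_left]

theorem K_herm (T : ContractionSemigroup H) : (K T).IsHermitian := by
  ext s t x
  apply ext_inner_right ℂ
  intro y
  rw [Matrix.conjTranspose_apply, ContinuousLinearMap.star_eq_adjoint,
    ContinuousLinearMap.adjoint_inner_left, K_inner, ← inner_conj_symm, K_inner, inner_conj_symm]

/-- The entries of the quadratic form. -/
noncomputable def q (T : ContractionSemigroup H) (x : ℝ≥0) (w : H) (x' : ℝ≥0) (w' : H) : ℂ :=
  ⟪T.op (x - x') w, T.op (x' - x) w'⟫_ℂ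

/-- The quadratic form. -/
noncomputable def Q (T : ContractionSemigroup H) (f : ℝ≥0 →₀ H) : ℂ :=
  f.sum fun x w => f.sum fun x' w' => q T x w x' w'

omit [CompleteSpace H] in
theorem Q_lower (T : ContractionSemigroup H) (f : ℝ≥0 →₀ H) :
    ∀ t : ℝ≥0, (∀ c ∈ f.support, t ≤ c) →
      ‖f.sum fun x w => T.op (x - t) w‖ ^ 2 ≤ (Q T f).re := by
  induction f using Finsupp.induction_on_min with
  | zero => intro t _; simp [Q]
  | single_add a b f ha hb ih =>
    intro t ht
    have q0r : ∀ (x x' : ℝ≥0) (w : H), q T x w x' 0 = 0 := fun x x' w => by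
      unfold q; rw [map_zero, inner_zero_right]
    have q0l : ∀ (x x' : ℝ≥0) (w : H), q T x 0 x' w = 0 := fun x x' w => by
      unfold q; rw [map_zero, inner_zero_left]
    have qar : ∀ (x x' : ℝ≥0) (w w1 w2 : H), q T x w x' (w1 + w2) = q T x w x' w1 + q T x w x' w2 :=
      fun x x' w w1 w2 => by unfold q; rw [map_add, inner_add_right]
    have qal : ∀ (x x' : ℝ≥0) (w w1 w2 : H), q T x (w1 + w2) x' w = q T x w1 x' w + q T x w2 x' w :=
      fun x x' w w1 w2 => by unfold q; rw [map_add, inner_add_left]
    -- the vector `u`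
    set u : H := f.sum fun x w => T.op (x - a) w with hu
    have h1 := ih a (fun c hc => (ha c hc).le)
    have hQ : Q T (Finsupp.single a b + f) = ⟪b, b⟫_ℂ + ⟪b, u⟫_ℂ + (⟪u, b⟫_ℂ + Q T f) := by
      unfold Q
      have hadd : ∀ (x : ℝ≥0) (w : H), ((Finsupp.single a b + f).sum fun x' w' => q T x w x' w') =
          q T x w a b + f.sum fun x' w' => q T x w x' w' := by
        intro x w
        have hs : ((Finsupp.single a b).sum fun x' w' => q T x w x' w') = q T x w a b :=
          Finsupp.sum_single_index (q0r x a w)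
        rw [← hs]
        exact Finsupp.sum_add_index' (fun x' => q0r x x' w) (fun x' w1 w2 => qar x x' w w1 w2)
      simp only [hadd]
      rw [Finsupp.sum_add_index']
      · have hs : ((Finsupp.single a b).sum fun x w => q T x w a b +
            f.sum fun x' w' => q T x w x' w') = q T a b a b + f.sum fun x' w' => q T a b x' w' := by
          apply Finsupp.sum_single_index
          simp [q0l]
        rw [hs, Finsupp.sum_add]
        have e1 : q T a b a b = ⟪b, b⟫_ℂ := by
          unfold q; rw [tsub_self, T.zero_apply]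
        have e2 : (f.sum fun x' w' => q T a b x' w') = ⟪b, u⟫_ℂ := by
          rw [hu, Finsupp.inner_sum]
          apply Finsupp.sum_congr
          intro c hc
          unfold q
          rw [tsub_eq_zero_of_le (ha c hc).le, T.zero_apply]
        have e3 : (f.sum fun x w => q T x w a b) = ⟪u, b⟫_ℂ := by
          rw [hu, Finsupp.sum_inner]
          apply Finsupp.sum_congr
          intro c hc
          unfold q
          rw [tsub_eq_zero_of_le (ha c hc).le, T.zero_apply]
        rw [e1, e2, e3]
      · intro x; simp [q0l]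
      · intro x w1 w2
        simp only [qal]
        rw [Finsupp.sum_add]
        ring
    have hre : (Q T (Finsupp.single a b + f)).re = ‖b‖ ^ 2 + 2 * (⟪b, u⟫_ℂ).re + (Q T f).re := by
      rw [hQ]
      simp only [Complex.add_re]
      have e1 : (⟪b, b⟫_ℂ).re = ‖b‖ ^ 2 := by
        have := inner_self_eq_norm_sq (𝕜 := ℂ) b
        exact this
      have e2 : (⟪u, b⟫_ℂ).re = (⟪b, u⟫_ℂ).re := by
        rw [← inner_conj_symm, Complex.conj_re]
      rw [e1, e2]; ring
    have hta : t ≤ a := by
      by_cases hfa : a ∈ (Finsupp.single a b + f).support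
      · exact ht a hfa
      · exfalso
        apply hfa
        rw [Finsupp.mem_support_iff]
        have hfz : f a = 0 := by
          by_contra h
          exact lt_irrefl _ (ha a (Finsupp.mem_support_iff.2 h))
        simp [hfz, hb]
    have hsum : ((Finsupp.single a b + f).sum fun x w => T.op (x - t) w) =
        T.op (a - t) (b + u) := by
      have hs : ((Finsupp.single a b).sum fun x w => T.op (x - t) w) = T.op (a - t) b :=
        Finsupp.sum_single_index (map_zero _)
      rw [Finsupp.sum_add_index' (fun x => map_zero _) (fun x w1 w2 => map_add _ _ _)]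
      rw [map_add]
      refine congrArg₂ (· + ·) hs ?_
      rw [hu, map_finsuppSum]
      apply Finsupp.sum_congr
      intro c hc
      have h2 : c - t = (a - t) + (c - a) := by
        have h3 := (ha c hc).le
        rw [add_comm, tsub_add_tsub_cancel h3 hta]
      rw [h2, T.add_apply]
    rw [hsum, hre]
    calc ‖T.op (a - t) (b + u)‖ ^ 2 ≤ ‖b + u‖ ^ 2 := by
          gcongr; exact T.norm_apply_le _ _
      _ = ‖b‖ ^ 2 + 2 * (⟪b, u⟫_ℂ).re + ‖u‖ ^ 2 := by
          rw [norm_add_sq (𝕜 := ℂ)]; rfl
      _ ≤ _ := by linarith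

theorem K_posSemidef (T : ContractionSemigroup H) : (K T).PosSemidef := by
  apply (RKHS.posSemidef_tfae.out 0 2).2
  refine ⟨K_herm T, fun f => ?_⟩
  have h1 := Q_lower T f 0 (fun c _ => zero_le)
  have h2 : (f.sum fun x w => f.sum fun x' w' => ⟪K T x' x w, w'⟫_ℂ) = Q T f := by
    unfold Q
    apply Finsupp.sum_congr
    intro x _
    apply Finsupp.sum_congr
    intro x' _
    exact K_inner T x' x _ _
  have h3 : 0 ≤ (Q T f).re := (sq_nonneg _).trans h1
  rw [← h2] at h3
  exact h3

instance (T : ContractionSemigroup H) : Fact (K T).PosSemidef := ⟨K_posSemidef T⟩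

/-- the dilation space -/
abbrev Dil (T : ContractionSemigroup H) := RKHS.OfKernel (K T)

/-- `V(t) v` -/
noncomputable def ker (T : ContractionSemigroup H) (t : ℝ≥0) : H →L[ℂ] Dil T :=
  RKHS.kerFun (Dil T) t

theorem ker_inner (T : ContractionSemigroup H) (s t : ℝ≥0) (v w : H) :
    ⟪ker T t v, ker T s w⟫_ℂ = ⟪T.op (t - s) v, T.op (s - t) w⟫_ℂ := by
  unfold ker
  rw [← RKHS.kernel_inner, RKHS.OfKernel.kernel_ofKernel, K_inner]

theorem ker_norm (T : ContractionSemigroup H) (t : ℝ≥0) (v : H) : ‖ker T t v‖ = ‖v‖ := by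
  have h := ker_inner T t t v v
  rw [tsub_self, T.zero_apply, inner_self_eq_norm_sq_to_K, inner_self_eq_norm_sq_to_K] at h
  have h2 : ‖ker T t v‖ ^ 2 = ‖v‖ ^ 2 := by exact_mod_cast h
  exact (sq_eq_sq₀ (norm_nonneg _) (norm_nonneg _)).1 h2

end Pool.Agent.Sx28.CS
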