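import Mathlib
import Pool.Agent.Sx28.CS.Dil

set_option autoImplicit false
open scoped NNReal InnerProductSpace Topology
open Filter

namespace Pool.Agent.Sx28.CS

/-- Extension of an isometric linear map from a dense range. -/
theorem extend_iso {M E F : Type*} [AddCommGroup M] [Module ℂ M] [NormedAddCommGroup E]
    [NormedSpace ℂ E] [NormedAddCommGroup F] [NormedSpace ℂ F] [CompleteSpace F]
    (e : M →ₗ[ℂ] E) (f : M →ₗ[ℂ] F) (hd : DenseRange e) (h : ∀ x, ‖f x‖ = ‖e x‖) :
    ∃ V : E →L[ℂ] F, (∀ x, V (e x) = f x) ∧ ∀ y, ‖V y‖ = ‖y‖ := by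
  have hb : ∃ C : ℝ, ∀ x, ‖f x‖ ≤ C * ‖e x‖ := ⟨1, fun x => by rw [h x, one_mul]⟩
  refine ⟨f.extendOfNorm e, fun x => LinearMap.extendOfNorm_eq hd hb x, ?_⟩
  intro y
  refine hd.induction_on (p := fun y => ‖f.extendOfNorm e y‖ = ‖y‖) y ?_ ?_
  · exact isClosed_eq (by fun_prop) (by fun_prop)
  · intro x
    rw [LinearMap.extendOfNorm_eq hd hb x, h x]

variable {H : Type*} [NormedAddCommGroup H] [InnerProductSpace ℂ H] [CompleteSpace H]

/-- `f ↦ ∑ V(t + r) f(t)` -/
noncomputable def em (T : ContractionSemigroup H) (r : ℝ≥0) : (ℝ≥0 →₀ H) →ₗ[ℂ] Dil T :=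
  Finsupp.lsum ℂ (fun t => ((ker T (t + r)) : H →ₗ[ℂ] Dil T))

theorem em_apply (T : ContractionSemigroup H) (r : ℝ≥0) (f : ℝ≥0 →₀ H) :
    em T r f = f.sum fun t v => ker T (t + r) v := by
  simp [em, Finsupp.lsum_apply]

theorem em_single (T : ContractionSemigroup H) (r t : ℝ≥0) (v : H) :
    em T r (Finsupp.single t v) = ker T (t + r) v := by
  simp [em]

theorem em_inner (T : ContractionSemigroup H) (r : ℝ≥0) (f g : ℝ≥0 →₀ H) :
    ⟪em T r f, em T r g⟫_ℂ = ⟪em T 0 f, em T 0 g⟫_ℂ := by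
  rw [em_apply, em_apply, em_apply, em_apply]
  rw [Finsupp.sum_inner, Finsupp.sum_inner]
  apply Finsupp.sum_congr
  intro x _
  rw [Finsupp.inner_sum, Finsupp.inner_sum]
  apply Finsupp.sum_congr
  intro y _
  rw [ker_inner, ker_inner, add_tsub_add_eq_tsub_right, add_tsub_add_eq_tsub_right, add_zero,
    add_zero]

theorem em_norm (T : ContractionSemigroup H) (r : ℝ≥0) (f : ℝ≥0 →₀ H) :
    ‖em T r f‖ = ‖em T 0 f‖ := by
  have h := em_inner T r f f
  rw [inner_self_eq_norm_sq_to_K, inner_self_eq_norm_sq_to_K] at h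
  have h2 : ‖em T r f‖ ^ 2 = ‖em T 0 f‖ ^ 2 := by exact_mod_cast h
  exact (sq_eq_sq₀ (norm_nonneg _) (norm_nonneg _)).1 h2

theorem em_dense (T : ContractionSemigroup H) : DenseRange (em T 0) := by
  have h := RKHS.kerFun_dense (H := Dil T)
  rw [← Submodule.dense_iff_topologicalClosure_eq_top] at h
  apply h.mono
  intro x hx
  have h2 : Submodule.span ℂ {z : Dil T | ∃ (x : ℝ≥0) (v : H), RKHS.kerFun (Dil T) x v = z} ≤
      LinearMap.range (em T 0) := by
    rw [Submodule.span_le]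
    rintro _ ⟨t, v, rfl⟩
    exact ⟨Finsupp.single t v, by rw [em_single, add_zero]; rfl⟩
  exact h2 hx

/-- The isometric dilation. -/
theorem exists_V (T : ContractionSemigroup H) (r : ℝ≥0) :
    ∃ V : Dil T →L[ℂ] Dil T, (∀ t v, V (ker T t v) = ker T (t + r) v) ∧ ∀ y, ‖V y‖ = ‖y‖ := by
  obtain ⟨V, h1, h2⟩ := extend_iso (em T 0) (em T r) (em_dense T) (em_norm T r)
  refine ⟨V, fun t v => ?_, h2⟩
  have := h1 (Finsupp.single t v)
  rw [em_single, em_single, add_zero] at this
  exact this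

/-- the operators of the isometric dilation -/
noncomputable def V (T : ContractionSemigroup H) (r : ℝ≥0) : Dil T →L[ℂ] Dil T :=
  (exists_V T r).choose

theorem V_ker (T : ContractionSemigroup H) (r t : ℝ≥0) (v : H) :
    V T r (ker T t v) = ker T (t + r) v := (exists_V T r).choose_spec.1 t v

theorem V_norm (T : ContractionSemigroup H) (r : ℝ≥0) (y : Dil T) : ‖V T r y‖ = ‖y‖ :=
  (exists_V T r).choose_spec.2 y

/-- Two continuous linear maps agreeing on the kernel vectors agree. -/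
theorem ext_ker (T : ContractionSemigroup H) {F : Type*} [NormedAddCommGroup F] [NormedSpace ℂ F]
    {A B : Dil T →L[ℂ] F} (h : ∀ t v, A (ker T t v) = B (ker T t v)) : A = B := by
  have h1 : ∀ f, A (em T 0 f) = B (em T 0 f) := by
    intro f
    rw [em_apply, map_finsuppSum, map_finsuppSum]
    apply Finsupp.sum_congr
    intro x _
    exact h _ _
  ext y
  refine (em_dense T).induction_on (p := fun y => A y = B y) y ?_ h1
  exact isClosed_eq A.continuous B.continuous

theorem ker_cont (T : ContractionSemigroup H) (v : H) : Continuous fun t => ker T t v := by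
  -- `‖ker t v - ker s v‖² = 2‖v‖² - 2 Re ⟨T(|t-s|)v, v⟩`
  have key : ∀ s t : ℝ≥0, s ≤ t → ‖ker T t v - ker T s v‖ ^ 2 ≤
      2 * (‖v‖ * ‖T.op (t - s) v - v‖) := by
    intro s t hst
    have h1 : ‖ker T t v - ker T s v‖ ^ 2 = 2 * ‖v‖ ^ 2 - 2 * (⟪T.op (t - s) v, v⟫_ℂ).re := by
      rw [norm_sub_sq (𝕜 := ℂ), ker_norm, ker_norm, ker_inner, tsub_eq_zero_of_le hst,
        T.zero_apply]
      have : RCLike.re ⟪T.op (t - s) v, v⟫_ℂ = (⟪T.op (t - s) v, v⟫_ℂ).re := rfl
      rw [this]; ring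
    have h2 : (⟪v, v⟫_ℂ).re = ‖v‖ ^ 2 := inner_self_eq_norm_sq (𝕜 := ℂ) v
    have h3 : 2 * ‖v‖ ^ 2 - 2 * (⟪T.op (t - s) v, v⟫_ℂ).re =
        2 * (⟪v - T.op (t - s) v, v⟫_ℂ).re := by
      rw [inner_sub_left, Complex.sub_re, h2]; ring
    rw [h1, h3]
    have h4 : (⟪v - T.op (t - s) v, v⟫_ℂ).re ≤ ‖v‖ * ‖T.op (t - s) v - v‖ := by
      calc (⟪v - T.op (t - s) v, v⟫_ℂ).re ≤ ‖⟪v - T.op (t - s) v, v⟫_ℂ‖ := Complex.re_le_norm _
        _ ≤ ‖v - T.op (t - s) v‖ * ‖v‖ := norm_inner_le_norm _ _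
        _ = _ := by rw [norm_sub_rev]; ring
    linarith
  rw [continuous_iff_continuousAt]
  intro s
  have hlim : Tendsto (fun t : ℝ≥0 => Real.sqrt (2 * (‖v‖ * (‖T.op (t - s) v - v‖ +
      ‖T.op (s - t) v - v‖)))) (𝓝 s) (𝓝 0) := by
    have hc : Continuous (fun t : ℝ≥0 => Real.sqrt (2 * (‖v‖ * (‖T.op (t - s) v - v‖ +
      ‖T.op (s - t) v - v‖)))) := by
      have h1 : Continuous fun t : ℝ≥0 => T.op (t - s) v := (T.cont v).comp (by fun_prop)
      have h2 : Continuous fun t : ℝ≥0 => T.op (s - t) v := (T.cont v).comp (by fun_prop)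
      fun_prop
    have := hc.tendsto s
    simpa [T.zero_apply] using this
  rw [ContinuousAt, tendsto_iff_norm_sub_tendsto_zero]
  refine squeeze_zero (fun _ => norm_nonneg _) (fun t => ?_) hlim
  apply Real.le_sqrt_of_sq_le
  rcases le_total s t with hst | hst
  · refine (key s t hst).trans ?_
    gcongr
    linarith [norm_nonneg (T.op (s - t) v - v)]
  · rw [norm_sub_rev]
    refine (key t s hst).trans ?_
    gcongr
    linarith [norm_nonneg (T.op (t - s) v - v)]

theorem V_cont (T : ContractionSemigroup H) (y : Dil T) : Continuous fun r => V T r y := by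
  have h1 : ∀ f, Continuous fun r => V T r (em T 0 f) := by
    intro f
    have : (fun r => V T r (em T 0 f)) = fun r => f.sum fun t v => ker T (t + r) v := by
      funext r
      rw [em_apply, map_finsuppSum]
      apply Finsupp.sum_congr
      intro x _
      rw [V_ker, add_zero]
    rw [this]
    unfold Finsupp.sum
    apply continuous_finsetSum
    intro t _
    exact (ker_cont T (f t)).comp (by fun_prop)
  rw [continuous_iff_continuousAt]
  intro r
  rw [Metric.continuousAt_iff']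
  intro ε hε
  obtain ⟨f, hf⟩ := Metric.denseRange_iff.1 (em_dense T) y (ε / 3) (by positivity)
  have h2 := Metric.continuousAt_iff'.1 ((h1 f).continuousAt (x := r)) (ε / 3) (by positivity)
  filter_upwards [h2] with r' hr'
  rw [dist_eq_norm] at hf hr' ⊢
  calc ‖V T r' y - V T r y‖ = ‖V T r' (y - em T 0 f) + (V T r' (em T 0 f) - V T r (em T 0 f)) -
        V T r (y - em T 0 f)‖ := by
        congr 1; simp only [map_sub]; abel
    _ ≤ ‖V T r' (y - em T 0 f)‖ + ‖V T r' (em T 0 f) - V T r (em T 0 f)‖ +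
        ‖V T r (y - em T 0 f)‖ := by
        refine (norm_sub_le _ _).trans ?_
        gcongr
        exact norm_add_le _ _
    _ < ε / 3 + ε / 3 + ε / 3 := by
        rw [V_norm, V_norm]; linarith
    _ = ε := by ring

/-- The isometric dilation as a semigroup. -/
noncomputable def dilSemi (T : ContractionSemigroup H) : ContractionSemigroup (Dil T) where
  op := V T
  map_zero := by
    apply ext_ker
    intro t v
    rw [V_ker, add_zero]; rfl
  map_add t s := by
    apply ext_ker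
    intro r v
    rw [ContinuousLinearMap.comp_apply, V_ker, V_ker, V_ker, add_comm t s, add_assoc]
  cont := V_cont T
  contr r := by
    apply ContinuousLinearMap.opNorm_le_bound _ zero_le_one
    intro y
    rw [V_norm, one_mul]

theorem dil_inner (T : ContractionSemigroup H) (t : ℝ≥0) (v w : H) :
    ⟪V T t (ker T 0 v), ker T 0 w⟫_ℂ = ⟪T.op t v, w⟫_ℂ := by
  rw [V_ker, zero_add, ker_inner, tsub_zero, zero_tsub, T.zero_apply]

end Pool.Agent.Sx28.CS
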