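import Mathlib
import Pool.Agent.Sx28.CS.Iso

set_option autoImplicit false
open scoped NNReal InnerProductSpace Topology
open Filter

namespace Pool.Agent.Sx28.CS

theorem orthonormal_elim {ι1 ι2 E : Type*} [NormedAddCommGroup E] [InnerProductSpace ℂ E]
    {u : ι1 → E} {v : ι2 → E} (hu : Orthonormal ℂ u) (hv : Orthonormal ℂ v)
    (h : ∀ i j, ⟪u i, v j⟫_ℂ = 0) : Orthonormal ℂ (Sum.elim u v) := by
  refine ⟨fun i => ?_, fun i j hij => ?_⟩
  · cases i with
    | inl i => exact hu.1 i
    | inr i => exact hv.1 i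
  · cases i with
    | inl i =>
      cases j with
      | inl j => exact hu.2 (fun h => hij (by rw [h]))
      | inr j => exact h i j
    | inr i =>
      cases j with
      | inl j => exact inner_eq_zero_symm.1 (h j i)
      | inr j => exact hv.2 (fun h => hij (by rw [h]))

theorem norm_lincomb {ι E F : Type*} [NormedAddCommGroup E] [InnerProductSpace ℂ E]
    [NormedAddCommGroup F] [InnerProductSpace ℂ F] {v : ι → E} {w : ι → F}
    (hv : Orthonormal ℂ v) (hw : Orthonormal ℂ w) (c : ι →₀ ℂ) :
    ‖Finsupp.linearCombination ℂ w c‖ = ‖Finsupp.linearCombination ℂ v c‖ := by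
  have h1 := hv.inner_finsupp_eq_sum_left c c
  have h2 := hw.inner_finsupp_eq_sum_left c c
  rw [← h1, inner_self_eq_norm_sq_to_K, inner_self_eq_norm_sq_to_K] at h2
  have h3 : ‖Finsupp.linearCombination ℂ w c‖ ^ 2 = ‖Finsupp.linearCombination ℂ v c‖ ^ 2 := by
    exact_mod_cast h2
  exact (sq_eq_sq₀ (norm_nonneg _) (norm_nonneg _)).1 h3

/-- An infinite dimensional Hilbert space contains an orthonormal sequence. -/
theorem exists_orthonormal_seq {E : Type*} [NormedAddCommGroup E] [InnerProductSpace ℂ E]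
    [CompleteSpace E] (hE : ¬ FiniteDimensional ℂ E) : ∃ g : ℕ → E, Orthonormal ℂ g := by
  obtain ⟨w, b, hb⟩ := exists_hilbertBasis ℂ E
  have hinf : Infinite w := by
    by_contra hfin
    rw [not_infinite_iff_finite] at hfin
    apply hE
    have hd := b.dense_span
    have hfr : (Set.range b).Finite := Set.finite_range b
    have hfd : FiniteDimensional ℂ (Submodule.span ℂ (Set.range b)) :=
      FiniteDimensional.span_of_finite ℂ hfr
    have hcl : IsClosed ((Submodule.span ℂ (Set.range b)) : Set E) :=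
      Submodule.closed_of_finiteDimensional _
    have htop : Submodule.span ℂ (Set.range b) = ⊤ := by
      rw [← hd]; exact (hcl.submodule_topologicalClosure_eq).symm
    rw [htop] at hfd
    exact Module.finite_def.2 (by rw [← Module.Finite.iff_fg]; exact hfd)
  exact ⟨fun n => b (Infinite.natEmbedding w n), b.orthonormal.comp _
    (Infinite.natEmbedding w).injective⟩

theorem countable_of_orthonormal {E : Type*} [NormedAddCommGroup E] [InnerProductSpace ℂ E]
    [TopologicalSpace.SeparableSpace E] {ι : Type*} {v : ι → E} (hv : Orthonormal ℂ v) :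
    Countable ι := by
  have hdist : ∀ i j, i ≠ j → 1 < ‖v i - v j‖ := by
    intro i j hij
    have h1 : ‖v i - v j‖ ^ 2 = 2 := by
      rw [norm_sub_sq (𝕜 := ℂ), hv.1 i, hv.1 j, hv.2 hij]
      simp; norm_num
    nlinarith [norm_nonneg (v i - v j)]
  have hp : Pairwise (Function.onFun Disjoint fun i => Metric.ball (v i) (1 / 2)) := by
    intro i j hij
    apply Metric.ball_disjoint_ball
    rw [dist_eq_norm]
    linarith [hdist i j hij]
  exact hp.countable_of_isOpen_disjoint (fun i => Metric.isOpen_ball)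
    (fun i => ⟨v i, Metric.mem_ball_self (by norm_num)⟩)

/-- Embedding of a separable extension `E` of `H` back into `H`, fixing a finite dimensional
subspace. -/
theorem exists_embed {E H : Type*} [NormedAddCommGroup E] [InnerProductSpace ℂ E]
    [CompleteSpace E] [TopologicalSpace.SeparableSpace E] [NormedAddCommGroup H]
    [InnerProductSpace ℂ H] [CompleteSpace H] (hH : ¬ FiniteDimensional ℂ H)
    (j : H →L[ℂ] E) (hj : ∀ x y, ⟪j x, j y⟫_ℂ = ⟪x, y⟫_ℂ) (F : Submodule ℂ H)
    [FiniteDimensional ℂ F] :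
    ∃ J : E →L[ℂ] H, (∀ y, ‖J y‖ = ‖y‖) ∧ ∀ v ∈ F, J (j v) = v := by
  classical
  set u := stdOrthonormalBasis ℂ F with hu
  -- orthonormal family of F in H
  have hu1 : Orthonormal ℂ (fun i => ((u i : F) : H)) := by
    have := u.orthonormal
    exact this.comp_linearIsometry F.subtypeₗᵢ
  have hu2 : Orthonormal ℂ (fun i => j ((u i : F) : H)) := by
    rw [orthonormal_iff_ite] at hu1 ⊢
    intro a b
    rw [hj]; exact hu1 a b
  set G : Submodule ℂ E := F.map (j : H →ₗ[ℂ] E) with hG
  have : FiniteDimensional ℂ G := inferInstance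
  obtain ⟨w, b, hb⟩ := exists_hilbertBasis ℂ (Gᗮ : Submodule ℂ E)
  have : Countable w := countable_of_orthonormal b.orthonormal
  obtain ⟨φ, hφ⟩ := exists_injective_nat w
  have hFinf : ¬ FiniteDimensional ℂ (Fᗮ : Submodule ℂ H) := by
    intro h
    apply hH
    have h1 : F ⊔ Fᗮ = ⊤ := Submodule.sup_orthogonal_of_hasOrthogonalProjection
    have h2 : FiniteDimensional ℂ (F ⊔ Fᗮ : Submodule ℂ H) := Submodule.finiteDimensional_sup _ _
    rw [h1] at h2
    exact Module.finite_def.2 (by rw [← Module.Finite.iff_fg]; exact h2)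
  obtain ⟨g, hg⟩ := exists_orthonormal_seq hFinf
  -- the two families
  have hv1 : Orthonormal ℂ (fun i : w => ((b i : (Gᗮ : Submodule ℂ E)) : E)) :=
    b.orthonormal.comp_linearIsometry (Gᗮ : Submodule ℂ E).subtypeₗᵢ
  have hv2 : Orthonormal ℂ (fun i : w => ((g (φ i) : (Fᗮ : Submodule ℂ H)) : H)) :=
    (hg.comp φ hφ).comp_linearIsometry (Fᗮ : Submodule ℂ H).subtypeₗᵢ
  have ho1 : Orthonormal ℂ (Sum.elim (fun i => j ((u i : F) : H))
      (fun i : w => ((b i : (Gᗮ : Submodule ℂ E)) : E))) := by
    apply orthonormal_elim hu2 hv1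
    intro a c
    exact (b c).2 _ ⟨u a, (u a).2, rfl⟩
  have ho2 : Orthonormal ℂ (Sum.elim (fun i => ((u i : F) : H))
      (fun i : w => ((g (φ i) : (Fᗮ : Submodule ℂ H)) : H))) := by
    apply orthonormal_elim hu1 hv2
    intro a c
    exact (g (φ c)).2 _ (u a).2
  have hdense : DenseRange (Finsupp.linearCombination ℂ (Sum.elim (fun i => j ((u i : F) : H))
      (fun i : w => ((b i : (Gᗮ : Submodule ℂ E)) : E)))) := by
    set S := LinearMap.range (Finsupp.linearCombination ℂ (Sum.elim (fun i => j ((u i : F) : H))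
      (fun i : w => ((b i : (Gᗮ : Submodule ℂ E)) : E)))) with hS
    have hS1 : ∀ y ∈ G, y ∈ S := by
      rintro _ ⟨v, hv, rfl⟩
      have h1 : (⟨v, hv⟩ : F) = ∑ i, u.repr ⟨v, hv⟩ i • u i := (u.sum_repr _).symm
      have h2 : v = ∑ i, u.repr ⟨v, hv⟩ i • ((u i : F) : H) := by
        have := congrArg (fun z : F => (z : H)) h1
        simpa using this
      change j v ∈ S
      rw [h2, map_sum]
      apply Submodule.sum_mem
      intro i _
      rw [map_smul]
      apply Submodule.smul_mem
      rw [hS, Finsupp.range_linearCombination]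
      exact Submodule.subset_span ⟨Sum.inl i, rfl⟩
    have hS2 : ∀ y : (Gᗮ : Submodule ℂ E), (y : E) ∈ S.topologicalClosure := by
      intro y
      have hd := b.dense_span
      have hy : y ∈ (Submodule.span ℂ (Set.range b)).topologicalClosure := by rw [hd]; trivial
      have hmap : Continuous (fun z : (Gᗮ : Submodule ℂ E) => (z : E)) := continuous_subtype_val
      have h3 : (y : E) ∈ closure ((fun z : (Gᗮ : Submodule ℂ E) => (z : E)) ''
          (Submodule.span ℂ (Set.range b) : Set (Gᗮ : Submodule ℂ E))) :=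
        image_closure_subset_closure_image hmap ⟨y, hy, rfl⟩
      refine closure_mono ?_ h3
      rintro _ ⟨z, hz, rfl⟩
      have h4 : Submodule.span ℂ (Set.range b) ≤
          S.comap ((Gᗮ : Submodule ℂ E).subtype) := by
        rw [Submodule.span_le]
        rintro _ ⟨i, rfl⟩
        change ((b i : (Gᗮ : Submodule ℂ E)) : E) ∈ S
        rw [hS, Finsupp.range_linearCombination]
        exact Submodule.subset_span ⟨Sum.inr i, rfl⟩
      exact h4 hz
    have hS3 : S.topologicalClosure = ⊤ := by
      rw [eq_top_iff, ← Submodule.sup_orthogonal_of_hasOrthogonalProjection (K := G)]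
      apply sup_le
      · intro y hy
        exact S.le_topologicalClosure (hS1 y hy)
      · intro y hy
        exact hS2 ⟨y, hy⟩
    have h5 : Dense (S : Set E) := Submodule.dense_iff_topologicalClosure_eq_top.2 hS3
    exact h5
  obtain ⟨J, hJ1, hJ2⟩ := extend_iso _ (Finsupp.linearCombination ℂ
    (Sum.elim (fun i => ((u i : F) : H)) (fun i : w => ((g (φ i) : (Fᗮ : Submodule ℂ H)) : H))))
    hdense (norm_lincomb ho1 ho2)
  refine ⟨J, hJ2, ?_⟩
  intro v hv
  have h1 : (⟨v, hv⟩ : F) = ∑ i, u.repr ⟨v, hv⟩ i • u i := (u.sum_repr _).symm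
  have h2 : v = ∑ i, u.repr ⟨v, hv⟩ i • ((u i : F) : H) := by
    have := congrArg (fun z : F => (z : H)) h1
    simpa using this
  rw [h2, map_sum, map_sum]
  apply Finset.sum_congr rfl
  intro i _
  rw [map_smul, map_smul]
  congr 1
  have := hJ1 (Finsupp.single (Sum.inl i) 1)
  simpa using this

end Pool.Agent.Sx28.CS
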