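import Mathlib
import Pool.Agent.Sx28.CS.Embed

set_option autoImplicit false
open scoped NNReal InnerProductSpace Topology
open Filter

namespace Pool.Agent.Sx28.CS

variable {H : Type*} [NormedAddCommGroup H] [InnerProductSpace ℂ H] [CompleteSpace H]

theorem dil_separable [TopologicalSpace.SeparableSpace H] (T : ContractionSemigroup H) :
    TopologicalSpace.SeparableSpace (Dil T) := by
  rw [← TopologicalSpace.isSeparable_univ_iff]
  set D : Set (Dil T) := ⋃ n : ℕ, Set.range (fun t => ker T t (TopologicalSpace.denseSeq H n))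
    with hD
  have hDs : TopologicalSpace.IsSeparable D := by
    apply TopologicalSpace.IsSeparable.iUnion
    intro n
    exact TopologicalSpace.isSeparable_range (ker_cont T _)
  have hsp := (hDs.span (R := ℂ)).closure
  apply hsp.mono
  intro y _
  have hcl : IsClosed (closure (Submodule.span ℂ D : Set (Dil T))) := isClosed_closure
  have hker : ∀ t v, ker T t v ∈ (Submodule.span ℂ D).topologicalClosure := by
    intro t v
    have h1 : v ∈ closure (Set.range (TopologicalSpace.denseSeq H)) :=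
      TopologicalSpace.denseRange_denseSeq H v
    have h2 : ker T t v ∈ closure (ker T t '' (Set.range (TopologicalSpace.denseSeq H))) :=
      image_closure_subset_closure_image (ker T t).continuous ⟨v, h1, rfl⟩
    refine closure_mono ?_ h2
    rintro _ ⟨_, ⟨n, rfl⟩, rfl⟩
    exact Submodule.subset_span (Set.mem_iUnion.2 ⟨n, t, rfl⟩)
  refine (em_dense T).induction_on
    (p := fun y => y ∈ closure (Submodule.span ℂ D : Set (Dil T))) y hcl ?_
  intro f
  rw [em_apply]
  change _ ∈ (Submodule.span ℂ D).topologicalClosure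
  apply Submodule.sum_mem
  intro t _
  exact hker _ _

/-- Transport of an isometric semigroup along an isometry `J : E → H`. -/
theorem transport {E : Type*} [NormedAddCommGroup E] [InnerProductSpace ℂ E] [CompleteSpace E]
    (S : ContractionSemigroup E) (hS : ∀ t x, ‖S.op t x‖ = ‖x‖) (J : E →L[ℂ] H)
    (hJ : ∀ y, ‖J y‖ = ‖y‖) : ∃ S' : ContractionSemigroup H, (∀ t x, ‖S'.op t x‖ = ‖x‖) ∧
      ∀ t x, S'.op t (J x) = J (S.op t x) := by
  have hJJ : ∀ y, J.adjoint (J y) = y := by
    intro y
    have h := (ContinuousLinearMap.norm_map_iff_adjoint_comp_self J).1 hJ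
    have := congrArg (fun A : E →L[ℂ] E => A y) h
    simpa using this
  set O : ℝ≥0 → H →L[ℂ] H := fun t => (J.comp (S.op t)).comp J.adjoint +
    (ContinuousLinearMap.id ℂ H - J.comp J.adjoint) with hO
  have hOa : ∀ t x, O t x = J (S.op t (J.adjoint x)) + (x - J (J.adjoint x)) := fun t x => rfl
  have hort : ∀ (z : E) (x : H), ⟪J z, x - J (J.adjoint x)⟫_ℂ = 0 := by
    intro z x
    rw [← ContinuousLinearMap.adjoint_inner_right, map_sub, hJJ, sub_self, inner_zero_right]
  have hn : ∀ (z : E) (x : H), ‖J z + (x - J (J.adjoint x))‖ ^ 2 =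
      ‖z‖ ^ 2 + ‖x - J (J.adjoint x)‖ ^ 2 := by
    intro z x
    rw [norm_add_sq (𝕜 := ℂ), hort, hJ]
    simp
  have hOn : ∀ t x, ‖O t x‖ = ‖x‖ := by
    intro t x
    have h1 := hn (S.op t (J.adjoint x)) x
    have h2 := hn (J.adjoint x) x
    rw [← hOa, hS] at h1
    have h3 : J (J.adjoint x) + (x - J (J.adjoint x)) = x := by abel
    rw [h3, ← h1] at h2
    exact ((sq_eq_sq₀ (norm_nonneg _) (norm_nonneg _)).1 h2).symm
  have hadj : ∀ (z : E) (x : H), J.adjoint (J z + (x - J (J.adjoint x))) = z := by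
    intro z x
    rw [map_add, map_sub, hJJ, hJJ]; abel
  refine ⟨⟨O, ?_, ?_, ?_, ?_⟩, hOn, ?_⟩
  · ext x
    rw [hOa, S.zero_apply]
    simp
  · intro t s
    ext x
    rw [ContinuousLinearMap.comp_apply, hOa (t + s) x, hOa t, S.add_apply, hOa s x, hadj]
    abel
  · intro x
    simp only [hOa]
    exact (J.continuous.comp (S.cont _)).add continuous_const
  · intro t
    apply ContinuousLinearMap.opNorm_le_bound _ zero_le_one
    intro x
    rw [hOn, one_mul]
  · intro t x
    change O t (J x) = _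
    rw [hOa, hJJ]; abel

/-- Approximation of a contraction semigroup by isometric semigroups. -/
theorem exists_isometric [TopologicalSpace.SeparableSpace H] (hH : ¬ FiniteDimensional ℂ H)
    (T : ContractionSemigroup H) (F : Submodule ℂ H) [FiniteDimensional ℂ F] :
    ∃ S : ContractionSemigroup H, (∀ t x, ‖S.op t x‖ = ‖x‖) ∧
      ∀ t, ∀ x ∈ F, ∀ y ∈ F, ⟪S.op t x, y⟫_ℂ = ⟪T.op t x, y⟫_ℂ := by
  have := dil_separable T
  have hj : ∀ x y, ⟪ker T 0 x, ker T 0 y⟫_ℂ = ⟪x, y⟫_ℂ := by
    intro x y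
    rw [ker_inner, tsub_self, T.zero_apply, T.zero_apply]
  obtain ⟨J, hJ, hJF⟩ := exists_embed hH (ker T 0) hj F
  obtain ⟨S, hS1, hS2⟩ := transport (dilSemi T) (V_norm T) J hJ
  refine ⟨S, hS1, ?_⟩
  intro t x hx y hy
  have hin : ∀ a b, ⟪J a, J b⟫_ℂ = ⟪a, b⟫_ℂ := by
    intro a b
    have h := (ContinuousLinearMap.norm_map_iff_adjoint_comp_self J).1 hJ
    rw [← ContinuousLinearMap.adjoint_inner_right]
    have := congrArg (fun A : Dil T →L[ℂ] Dil T => A b) h
    simp only [ContinuousLinearMap.comp_apply] at this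
    rw [this]; rfl
  conv_lhs => rw [← hJF x hx, ← hJF y hy]
  rw [hS2, hin]
  exact dil_inner T t x y

end Pool.Agent.Sx28.CS
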