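import Mathlib
import Pool.Agent.Sx28.CS.Defs

set_option autoImplicit false
open scoped NNReal InnerProductSpace Topology
open Filter

namespace Pool.Agent.Sx28.CS

variable {H : Type*} [NormedAddCommGroup H] [InnerProductSpace ℂ H]

/-- `sup_{0 ≤ t ≤ r} |⟨(T(t) - S(t)) a, b⟩|` -/
noncomputable def supDiff (r : ℝ≥0) (a b : H) (T S : ContractionSemigroup H) : ℝ :=
  ⨆ t : Set.Icc (0 : ℝ≥0) r, ‖⟪(T.op t - S.op t) a, b⟫_ℂ‖

/-- The metric `d` of the problem, for a sequence `x` of nonzero vectors (indices shifted by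
one). -/
noncomputable def dd (x : ℕ → H) (T S : ContractionSemigroup H) : ℝ :=
  ∑' p : ℕ × ℕ × ℕ, (1 / 2 : ℝ) ^ ((p.1 + 1) + (p.2.1 + 1) + (p.2.2 + 1)) *
    (supDiff ((p.1 : ℝ≥0) + 1) (x p.2.1) (x p.2.2) T S / (‖x p.2.1‖ * ‖x p.2.2‖))

theorem diff_le (a b : H) (T S : ContractionSemigroup H) (t : ℝ≥0) :
    ‖⟪(T.op t - S.op t) a, b⟫_ℂ‖ ≤ 2 * (‖a‖ * ‖b‖) := by
  have h1 : ‖(T.op t - S.op t) a‖ ≤ 2 * ‖a‖ := by
    calc ‖(T.op t - S.op t) a‖ = ‖T.op t a - S.op t a‖ := rfl
      _ ≤ ‖T.op t a‖ + ‖S.op t a‖ := norm_sub_le _ _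
      _ ≤ ‖a‖ + ‖a‖ := add_le_add (T.norm_apply_le _ _) (S.norm_apply_le _ _)
      _ = 2 * ‖a‖ := by ring
  calc ‖⟪(T.op t - S.op t) a, b⟫_ℂ‖ ≤ ‖(T.op t - S.op t) a‖ * ‖b‖ := norm_inner_le_norm _ _
    _ ≤ 2 * ‖a‖ * ‖b‖ := by gcongr
    _ = _ := by ring

theorem bdd (r : ℝ≥0) (a b : H) (T S : ContractionSemigroup H) :
    BddAbove (Set.range fun t : Set.Icc (0 : ℝ≥0) r => ‖⟪(T.op t - S.op t) a, b⟫_ℂ‖) :=
  ⟨2 * (‖a‖ * ‖b‖), by rintro _ ⟨t, rfl⟩; exact diff_le a b T S t⟩

instance (r : ℝ≥0) : Nonempty (Set.Icc (0 : ℝ≥0) r) := ⟨⟨0, le_rfl, zero_le⟩⟩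

theorem supDiff_le (r : ℝ≥0) (a b : H) (T S : ContractionSemigroup H) :
    supDiff r a b T S ≤ 2 * (‖a‖ * ‖b‖) := ciSup_le fun t => diff_le a b T S t

theorem supDiff_nonneg (r : ℝ≥0) (a b : H) (T S : ContractionSemigroup H) :
    0 ≤ supDiff r a b T S := Real.iSup_nonneg fun _ => norm_nonneg _

theorem le_supDiff {r t : ℝ≥0} (ht : t ≤ r) (a b : H) (T S : ContractionSemigroup H) :
    ‖⟪(T.op t - S.op t) a, b⟫_ℂ‖ ≤ supDiff r a b T S :=
  le_ciSup (bdd r a b T S) ⟨t, zero_le, ht⟩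

theorem supDiff_le_of {r : ℝ≥0} {a b : H} {T S : ContractionSemigroup H} {C : ℝ}
    (h : ∀ t ≤ r, ‖⟪(T.op t - S.op t) a, b⟫_ℂ‖ ≤ C) : supDiff r a b T S ≤ C :=
  ciSup_le fun t => h t t.2.2

theorem supDiff_self (r : ℝ≥0) (a b : H) (T : ContractionSemigroup H) : supDiff r a b T T = 0 := by
  unfold supDiff; simp

theorem supDiff_comm (r : ℝ≥0) (a b : H) (T S : ContractionSemigroup H) :
    supDiff r a b T S = supDiff r a b S T := by
  unfold supDiff
  congr 1
  funext t
  rw [← neg_sub (S.op t) (T.op t), _root_.neg_apply, inner_neg_left, norm_neg]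

theorem supDiff_triangle (r : ℝ≥0) (a b : H) (T S R : ContractionSemigroup H) :
    supDiff r a b T R ≤ supDiff r a b T S + supDiff r a b S R := by
  apply supDiff_le_of
  intro t ht
  have h1 : (T.op t - R.op t) a = (T.op t - S.op t) a + (S.op t - R.op t) a := by
    simp
  rw [h1, inner_add_left]
  exact (norm_add_le _ _).trans (add_le_add (le_supDiff ht a b T S) (le_supDiff ht a b S R))

section

variable {x : ℕ → H}

/-- the summands -/
noncomputable def tm (x : ℕ → H) (T S : ContractionSemigroup H) (p : ℕ × ℕ × ℕ) : ℝ :=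
  (1 / 2 : ℝ) ^ ((p.1 + 1) + (p.2.1 + 1) + (p.2.2 + 1)) *
    (supDiff ((p.1 : ℝ≥0) + 1) (x p.2.1) (x p.2.2) T S / (‖x p.2.1‖ * ‖x p.2.2‖))

/-- the bounding sequence -/
noncomputable def bd (p : ℕ × ℕ × ℕ) : ℝ :=
  (1 / 2 : ℝ) ^ ((p.1 + 1) + (p.2.1 + 1) + (p.2.2 + 1)) * 2

theorem bd_summable : Summable bd := by
  have h1 : Summable (fun n : ℕ => (1 / 2 : ℝ) ^ n) :=
    summable_geometric_of_lt_one (by norm_num) (by norm_num)
  have h2 := h1.mul_of_nonneg (h1.mul_of_nonneg h1 (fun _ => by positivity)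
    (fun _ => by positivity)) (fun _ => by positivity) (fun _ => by positivity)
  refine (h2.mul_left (1 / 4)).congr (fun p => ?_)
  unfold bd
  rw [pow_add, pow_add, pow_succ, pow_succ, pow_succ]
  ring

theorem tm_nonneg (T S : ContractionSemigroup H) (p : ℕ × ℕ × ℕ) : 0 ≤ tm x T S p := by
  unfold tm
  have := supDiff_nonneg ((p.1 : ℝ≥0) + 1) (x p.2.1) (x p.2.2) T S
  positivity

theorem tm_le (hx : ∀ j, x j ≠ 0) (T S : ContractionSemigroup H) (p : ℕ × ℕ × ℕ) :
    tm x T S p ≤ bd p := by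
  unfold tm bd
  have h := supDiff_le ((p.1 : ℝ≥0) + 1) (x p.2.1) (x p.2.2) T S
  have h1 : 0 < ‖x p.2.1‖ := norm_pos_iff.2 (hx _)
  have h2 : 0 < ‖x p.2.2‖ := norm_pos_iff.2 (hx _)
  gcongr
  rw [div_le_iff₀ (by positivity)]
  exact h

theorem tm_summable (hx : ∀ j, x j ≠ 0) (T S : ContractionSemigroup H) : Summable (tm x T S) :=
  Summable.of_nonneg_of_le (tm_nonneg T S) (tm_le hx T S) bd_summable

/-- `(C^cont, d)` is a metric space. -/
@[reducible] noncomputable def metricSpace (x : ℕ → H) (hx : ∀ j, x j ≠ 0) (hd : Dense (Set.range x)) :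
    MetricSpace (ContractionSemigroup H) where
  dist := dd x
  dist_self T := by
    change ∑' p, tm x T T p = 0
    have : ∀ p, tm x T T p = 0 := fun p => by unfold tm; rw [supDiff_self]; simp
    simp [this]
  dist_comm T S := by
    change ∑' p, tm x T S p = ∑' p, tm x S T p
    apply tsum_congr
    intro p
    unfold tm
    rw [supDiff_comm]
  dist_triangle T S R := by
    change ∑' p, tm x T R p ≤ ∑' p, tm x T S p + ∑' p, tm x S R p
    rw [← (tm_summable hx T S).tsum_add (tm_summable hx S R)]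
    apply (tm_summable hx T R).tsum_le_tsum _ ((tm_summable hx T S).add (tm_summable hx S R))
    intro p
    unfold tm
    rw [← mul_add, ← add_div]
    gcongr
    exact supDiff_triangle _ _ _ _ _ _
  eq_of_dist_eq_zero := by
    intro T S h
    change ∑' p, tm x T S p = 0 at h
    have h1 : ∀ p, tm x T S p = 0 := by
      have h0 := (tm_summable hx T S).hasSum
      rw [h] at h0
      intro p
      exact congrFun ((hasSum_zero_iff_of_nonneg (tm_nonneg T S)).1 h0) p
    have h2 : ∀ (t : ℝ≥0) (i j : ℕ), ⟪(T.op t - S.op t) (x i), x j⟫_ℂ = 0 := by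
      intro t i j
      obtain ⟨n, hn⟩ := exists_nat_ge t
      have h3 := h1 (n, i, j)
      unfold tm at h3
      have hi : 0 < ‖x i‖ := norm_pos_iff.2 (hx _)
      have hj : 0 < ‖x j‖ := norm_pos_iff.2 (hx _)
      have h4 : supDiff ((n : ℝ≥0) + 1) (x i) (x j) T S = 0 := by
        rcases mul_eq_zero.1 h3 with h | h
        · exact absurd h (by positivity)
        · rcases div_eq_zero_iff.1 h with h | h
          · exact h
          · exact absurd h (by positivity)
      have h5 := le_supDiff (r := (n : ℝ≥0) + 1) (hn.trans (le_add_of_nonneg_right zero_le))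
        (x i) (x j) T S
      rw [h4] at h5
      exact norm_le_zero_iff.1 h5
    have h3 : T.op = S.op := by
      funext t
      have h4 : ∀ i, (T.op t - S.op t) (x i) = 0 := by
        intro i
        have h5 : ∀ y, ⟪(T.op t - S.op t) (x i), y⟫_ℂ = 0 := by
          intro y
          refine (show DenseRange x from hd).induction_on (p := fun y => ⟪(T.op t - S.op t) (x i), y⟫_ℂ = 0) y ?_ ?_
          · exact isClosed_eq (by fun_prop) continuous_const
          · intro j
            exact h2 t i j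
        exact inner_self_eq_zero.1 (h5 _)
      have h6 : T.op t - S.op t = 0 := by
        ext y
        refine (show DenseRange x from hd).induction_on (p := fun y => (T.op t - S.op t) y = (0 : H →L[ℂ] H) y) y ?_ ?_
        · exact isClosed_eq (by fun_prop) (by fun_prop)
        · intro j
          rw [h4 j]; rfl
      exact sub_eq_zero.1 h6
    cases T; cases S
    simp only at h3
    subst h3
    rfl

theorem tendsto_iff (hx : ∀ j, x j ≠ 0) {ι : Type*} {l : Filter ι}
    {F : ι → ContractionSemigroup H} {T : ContractionSemigroup H} :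
    Tendsto (fun a => dd x (F a) T) l (𝓝 0) ↔
      ∀ n i j : ℕ, Tendsto (fun a => supDiff ((n : ℝ≥0) + 1) (x i) (x j) (F a) T) l (𝓝 0) := by
  constructor
  · intro h n i j
    set c : ℝ := (1 / 2 : ℝ) ^ ((n + 1) + (i + 1) + (j + 1)) / (‖x i‖ * ‖x j‖) with hc
    have hi : 0 < ‖x i‖ := norm_pos_iff.2 (hx _)
    have hj : 0 < ‖x j‖ := norm_pos_iff.2 (hx _)
    have hcpos : 0 < c := by positivity
    have h1 : ∀ a, supDiff ((n : ℝ≥0) + 1) (x i) (x j) (F a) T ≤ c⁻¹ * dd x (F a) T := by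
      intro a
      have h2 : tm x (F a) T (n, i, j) ≤ dd x (F a) T :=
        (tm_summable hx (F a) T).le_tsum (n, i, j) (fun p _ => tm_nonneg _ _ p)
      have h3 : tm x (F a) T (n, i, j) = c * supDiff ((n : ℝ≥0) + 1) (x i) (x j) (F a) T := by
        unfold tm; rw [hc]; ring
      rw [h3] at h2
      rw [inv_mul_eq_div, le_div_iff₀ hcpos, mul_comm]
      exact h2
    refine squeeze_zero (fun a => supDiff_nonneg _ _ _ _ _) h1 ?_
    have := h.const_mul c⁻¹
    rwa [mul_zero] at this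
  · intro h
    have h1 : Tendsto (fun a => ∑' p, tm x (F a) T p) l (𝓝 (∑' _ : ℕ × ℕ × ℕ, (0 : ℝ))) := by
      refine tendsto_tsum_of_dominated_convergence (bound := bd) bd_summable ?_ ?_
      · rintro ⟨n, i, j⟩
        have h2 := ((h n i j).div_const (‖x i‖ * ‖x j‖)).const_mul
          ((1 / 2 : ℝ) ^ ((n + 1) + (i + 1) + (j + 1)))
        rw [zero_div, mul_zero] at h2
        exact h2
      · refine Eventually.of_forall (fun a p => ?_)
        rw [Real.norm_eq_abs, abs_of_nonneg (tm_nonneg _ _ _)]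
        exact tm_le hx _ _ p
    rw [tsum_zero] at h1
    exact h1

end

end Pool.Agent.Sx28.CS
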