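import Mathlib
import Pool.Agent.Sx28.CS.Approx
import Pool.Agent.Sx28.CS.Metric

set_option autoImplicit false
open scoped NNReal InnerProductSpace Topology
open Filter Set

namespace Pool.Agent.Sx28.CS

theorem baire_of_inducing {X Y : Type*} [TopologicalSpace X] [TopologicalSpace Y] [BaireSpace Y]
    (ι : Y → X) (hι : Topology.IsInducing ι) (hd : DenseRange ι) : BaireSpace X := by
  refine ⟨fun U hU hUd => ?_⟩
  have h1 : ∀ n, IsOpen (ι ⁻¹' U n) := fun n => (hU n).preimage hι.continuous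
  have h2 : ∀ n, Dense (ι ⁻¹' U n) := by
    intro n
    rw [dense_iff_inter_open]
    intro W hW hWne
    obtain ⟨O, hO, rfl⟩ := hι.isOpen_iff.1 hW
    obtain ⟨y, hy⟩ := hWne
    obtain ⟨z, hz⟩ := (hUd n).inter_open_nonempty O hO ⟨ι y, hy⟩
    obtain ⟨w, hw⟩ := hd.exists_mem_open (hO.inter (hU n)) ⟨z, hz⟩
    exact ⟨w, hw.1, hw.2⟩
  have h3 := BaireSpace.baire_property _ h1 h2
  have h4 := hd.dense_image hι.continuous h3
  apply h4.mono
  rintro _ ⟨y, hy, rfl⟩
  rw [mem_iInter] at hy ⊢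
  exact hy

variable {H : Type*} [NormedAddCommGroup H] [InnerProductSpace ℂ H]

/-- orbits of isometric semigroups -/
def YY (x : ℕ → H) : Set (ℕ → C(ℝ≥0, H)) :=
  {f | (∀ i, f i 0 = x i) ∧
    (∀ (c : ℕ →₀ ℂ) (t : ℝ≥0), ‖c.sum fun j a => a • f j t‖ = ‖c.sum fun j a => a • x j‖) ∧
    ∀ (i : ℕ) (s t : ℝ≥0) (c : ℕ →₀ ℂ), ‖f i (t + s) - c.sum fun j a => a • f j t‖ =
      ‖f i s - c.sum fun j a => a • x j‖}

theorem YY_closed (x : ℕ → H) : IsClosed (YY x) := by
  have hev : ∀ (i : ℕ) (t : ℝ≥0), Continuous fun f : ℕ → C(ℝ≥0, H) => f i t := fun i t =>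
    (continuous_eval_const (F := C(ℝ≥0, H)) t).comp (continuous_apply i)
  have hsum : ∀ (c : ℕ →₀ ℂ) (t : ℝ≥0),
      Continuous fun f : ℕ → C(ℝ≥0, H) => c.sum fun j a => a • f j t := by
    intro c t
    unfold Finsupp.sum
    exact continuous_finsetSum _ (fun j _ => (hev j t).const_smul _)
  have e : YY x = (⋂ i, {f | f i 0 = x i}) ∩ ((⋂ (c : ℕ →₀ ℂ), ⋂ (t : ℝ≥0),
      {f : ℕ → C(ℝ≥0, H) | ‖c.sum fun j a => a • f j t‖ = ‖c.sum fun j a => a • x j‖}) ∩
      ⋂ (i : ℕ), ⋂ (s : ℝ≥0), ⋂ (t : ℝ≥0), ⋂ (c : ℕ →₀ ℂ),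
        {f : ℕ → C(ℝ≥0, H) | ‖f i (t + s) - c.sum fun j a => a • f j t‖ =
          ‖f i s - c.sum fun j a => a • x j‖}) := by
    ext f
    simp [YY]
  rw [e]
  refine IsClosed.inter (isClosed_iInter fun i => isClosed_eq (hev i 0) continuous_const)
    (IsClosed.inter (isClosed_iInter fun c => isClosed_iInter fun t => ?_)
      (isClosed_iInter fun i => isClosed_iInter fun s => isClosed_iInter fun t =>
        isClosed_iInter fun c => ?_))
  · exact isClosed_eq (hsum c t).norm continuous_const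
  · exact isClosed_eq ((hev i (t + s)).sub (hsum c t)).norm ((hev i s).sub continuous_const).norm

theorem lin_eq (x : ℕ → H) (c : ℕ →₀ ℂ) :
    Finsupp.linearCombination ℂ x c = c.sum fun j a => a • x j := rfl

theorem lin_dense {x : ℕ → H} (hd : Dense (range x)) : DenseRange (Finsupp.linearCombination ℂ x) := by
  apply Dense.mono _ hd
  rintro _ ⟨j, rfl⟩
  exact ⟨Finsupp.single j 1, by simp⟩

/-- The semigroup with given orbits. -/
theorem exists_semi [CompleteSpace H] {x : ℕ → H} (hd : Dense (range x))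
    {f : ℕ → C(ℝ≥0, H)} (hf : f ∈ YY x) : ∃ S : ContractionSemigroup H,
      (∀ t y, ‖S.op t y‖ = ‖y‖) ∧ ∀ i t, S.op t (x i) = f i t := by
  obtain ⟨h0, h1, h2⟩ := hf
  have hV : ∀ t : ℝ≥0, ∃ V : H →L[ℂ] H,
      (∀ c, V (Finsupp.linearCombination ℂ x c) = Finsupp.linearCombination ℂ (fun j => f j t) c) ∧
      ∀ y, ‖V y‖ = ‖y‖ := fun t => extend_iso _ _ (lin_dense hd) (fun c => h1 c t)
  choose V hV1 hV2 using hV
  have hVx : ∀ t i, V t (x i) = f i t := by
    intro t i
    have := hV1 t (Finsupp.single i 1)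
    simpa using this
  have hext : ∀ A B : H →L[ℂ] H, (∀ i, A (x i) = B (x i)) → A = B := by
    intro A B hAB
    ext y
    refine (show DenseRange x from hd).induction_on (p := fun y => A y = B y) y ?_ hAB
    exact isClosed_eq A.continuous B.continuous
  refine ⟨⟨V, ?_, ?_, ?_, ?_⟩, hV2, fun i t => hVx t i⟩
  · apply hext
    intro i
    rw [hVx, h0]; rfl
  · intro t s
    apply hext
    intro i
    rw [hVx, ContinuousLinearMap.comp_apply, hVx]
    rw [← sub_eq_zero, ← norm_eq_zero]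
    apply le_antisymm _ (norm_nonneg _)
    apply le_of_forall_pos_le_add
    intro ε hε
    obtain ⟨c, hc⟩ := Metric.denseRange_iff.1 (lin_dense hd) (f i s) (ε / 2) (by positivity)
    rw [dist_eq_norm] at hc
    have h3 := h2 i s t c
    have h4 : V t (Finsupp.linearCombination ℂ x c) = c.sum fun j a => a • f j t := hV1 t c
    calc ‖f i (t + s) - V t (f i s)‖ = ‖(f i (t + s) - c.sum fun j a => a • f j t) -
          V t (f i s - Finsupp.linearCombination ℂ x c)‖ := by
          rw [map_sub, h4]; congr 1; abel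
      _ ≤ ‖f i (t + s) - c.sum fun j a => a • f j t‖ +
          ‖V t (f i s - Finsupp.linearCombination ℂ x c)‖ := norm_sub_le _ _
      _ ≤ 0 + ε := by
          rw [h3, hV2]
          change ‖f i s - Finsupp.linearCombination ℂ x c‖ + _ ≤ _
          linarith
  · intro y
    rw [continuous_iff_continuousAt]
    intro r
    rw [Metric.continuousAt_iff']
    intro ε hε
    obtain ⟨i, hi⟩ := Metric.denseRange_iff.1 (show DenseRange x from hd) y (ε / 3) (by positivity)
    have hc : Continuous fun t => V t (x i) := by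
      simp only [hVx]
      exact (f i).continuous
    have h2 := Metric.continuousAt_iff'.1 (hc.continuousAt (x := r)) (ε / 3) (by positivity)
    filter_upwards [h2] with r' hr'
    rw [dist_eq_norm] at hi hr' ⊢
    calc ‖V r' y - V r y‖ = ‖V r' (y - x i) + (V r' (x i) - V r (x i)) - V r (y - x i)‖ := by
          congr 1; simp only [map_sub]; abel
      _ ≤ ‖V r' (y - x i)‖ + ‖V r' (x i) - V r (x i)‖ + ‖V r (y - x i)‖ := by
          refine (norm_sub_le _ _).trans ?_
          gcongr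
          exact norm_add_le _ _
      _ < ε / 3 + ε / 3 + ε / 3 := by
          rw [hV2, hV2]; linarith
      _ = ε := by ring
  · intro t
    apply ContinuousLinearMap.opNorm_le_bound _ zero_le_one
    intro y
    rw [hV2, one_mul]

variable [CompleteSpace H]

/-- the semigroup with orbits `f` -/
noncomputable def io {x : ℕ → H} (hd : Dense (range x)) (f : YY x) : ContractionSemigroup H :=
  (exists_semi hd f.2).choose

theorem io_norm {x : ℕ → H} (hd : Dense (range x)) (f : YY x) (t : ℝ≥0) (y : H) :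
    ‖(io hd f).op t y‖ = ‖y‖ := (exists_semi hd f.2).choose_spec.1 t y

theorem io_apply {x : ℕ → H} (hd : Dense (range x)) (f : YY x) (i : ℕ) (t : ℝ≥0) :
    (io hd f).op t (x i) = f.1 i t := (exists_semi hd f.2).choose_spec.2 i t

/-- every isometric semigroup is in the range -/
theorem io_surj {x : ℕ → H} (hd : Dense (range x)) (S : ContractionSemigroup H)
    (hS : ∀ t y, ‖S.op t y‖ = ‖y‖) : ∃ f : YY x, io hd f = S := by
  set f : ℕ → C(ℝ≥0, H) := fun i => ⟨fun t => S.op t (x i), S.cont (x i)⟩ with hf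
  have hfa : ∀ i t, f i t = S.op t (x i) := fun i t => rfl
  have hsum : ∀ (c : ℕ →₀ ℂ) (t : ℝ≥0), (c.sum fun j a => a • f j t) =
      S.op t (c.sum fun j a => a • x j) := by
    intro c t
    rw [map_finsuppSum]
    apply Finsupp.sum_congr
    intro j _
    rw [hfa, map_smul]
  have hmem : f ∈ YY x := by
    refine ⟨fun i => ?_, fun c t => ?_, fun i s t c => ?_⟩
    · rw [hfa, S.zero_apply]
    · rw [hsum, hS]
    · rw [hsum, hfa, hfa, S.add_apply, ← map_sub, hS]
  refine ⟨⟨f, hmem⟩, ?_⟩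
  have h3 : (io hd ⟨f, hmem⟩).op = S.op := by
    funext t
    ext y
    refine (show DenseRange x from hd).induction_on
      (p := fun y => (io hd ⟨f, hmem⟩).op t y = S.op t y) y ?_ ?_
    · exact isClosed_eq (by fun_prop) (by fun_prop)
    · intro i
      rw [io_apply]
      exact hfa i t
  generalize io hd ⟨f, hmem⟩ = S' at h3
  cases S; cases S'
  simp only at h3
  subst h3
  rfl

theorem tendsto_io {x : ℕ → H} (hx : ∀ j, x j ≠ 0) (hd : Dense (range x)) {α : Type*}
    {l : Filter α} {F : α → YY x} {f : YY x} :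
    Tendsto F l (𝓝 f) ↔ Tendsto (fun a => dd x (io hd (F a)) (io hd f)) l (𝓝 0) := by
  rw [tendsto_iff hx, tendsto_subtype_rng, tendsto_pi_nhds]
  have hK : ∀ r : ℝ≥0, IsCompact (Icc (0 : ℝ≥0) r) := fun r => isCompact_Icc
  constructor
  · intro h n i j
    have h1 := (ContinuousMap.tendsto_iff_forall_isCompact_tendstoUniformlyOn.1 (h i)) _
      (hK ((n : ℝ≥0) + 1))
    rw [Metric.tendstoUniformlyOn_iff] at h1
    rw [Metric.tendsto_nhds]
    intro ε hε
    filter_upwards [h1 (ε / (2 * (‖x j‖ + 1))) (by positivity)] with a ha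
    rw [Real.dist_eq, sub_zero, abs_of_nonneg (supDiff_nonneg _ _ _ _ _)]
    have h2 : supDiff ((n : ℝ≥0) + 1) (x i) (x j) (io hd (F a)) (io hd f) ≤ ε / 2 := by
      apply supDiff_le_of
      intro t ht
      have h3 := ha t ⟨zero_le, ht⟩
      rw [dist_comm, dist_eq_norm] at h3
      have h4 : ((io hd (F a)).op t - (io hd f).op t) (x i) = (F a).1 i t - f.1 i t := by
        rw [_root_.sub_apply, io_apply, io_apply]
      rw [h4]
      calc ‖⟪(F a).1 i t - f.1 i t, x j⟫_ℂ‖ ≤ ‖(F a).1 i t - f.1 i t‖ * ‖x j‖ :=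
            norm_inner_le_norm _ _
        _ ≤ (ε / (2 * (‖x j‖ + 1))) * (‖x j‖ + 1) := by
            apply mul_le_mul h3.le (by linarith) (norm_nonneg _) (by positivity)
        _ = ε / 2 := by field_simp
    linarith
  · intro h i
    rw [ContinuousMap.tendsto_iff_forall_isCompact_tendstoUniformlyOn]
    intro K hKc
    obtain ⟨n, hn⟩ : ∃ n : ℕ, K ⊆ Icc (0 : ℝ≥0) ((n : ℝ≥0) + 1) := by
      obtain ⟨M, hM⟩ := hKc.bddAbove
      obtain ⟨n, hn⟩ := exists_nat_ge M
      exact ⟨n, fun t ht => ⟨zero_le, (hM ht).trans (hn.trans (le_add_of_nonneg_right zero_le))⟩⟩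
    apply TendstoUniformlyOn.mono _ hn
    rw [Metric.tendstoUniformlyOn_iff]
    intro ε hε
    -- the orbit is totally bounded
    set V := io hd f with hV
    set δ : ℝ := ε ^ 2 / (8 * (‖x i‖ + 1)) with hδ
    have hδpos : 0 < δ := by positivity
    have hcomp : IsCompact ((fun t => V.op t (x i)) '' Icc (0 : ℝ≥0) ((n : ℝ≥0) + 1)) :=
      (hK _).image (V.cont _)
    obtain ⟨J, hJ⟩ : ∃ J : Finset ℕ, (fun t => V.op t (x i)) '' Icc (0 : ℝ≥0) ((n : ℝ≥0) + 1) ⊆
        ⋃ j ∈ J, Metric.ball (x j) δ := by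
      refine hcomp.elim_finite_subcover (fun j => Metric.ball (x j) δ)
        (fun j => Metric.isOpen_ball) ?_
      intro y _
      obtain ⟨j, hj⟩ := Metric.denseRange_iff.1 (show DenseRange x from hd) y δ hδpos
      exact mem_iUnion.2 ⟨j, hj⟩
    have hev : ∀ᶠ a in l, ∀ j ∈ J,
        supDiff ((n : ℝ≥0) + 1) (x i) (x j) (io hd (F a)) V < ε ^ 2 / 4 := by
      rw [Filter.eventually_all_finset]
      intro j _
      exact (h n i j).eventually (gt_mem_nhds (by positivity))
    filter_upwards [hev] with a ha t ht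
    obtain ⟨j, hjJ, hj⟩ : ∃ j ∈ J, dist (V.op t (x i)) (x j) < δ := by
      have := hJ ⟨t, ht, rfl⟩
      simpa using this
    rw [dist_comm, dist_eq_norm]
    have hA : (F a).1 i t = (io hd (F a)).op t (x i) := (io_apply hd (F a) i t).symm
    have hB : f.1 i t = V.op t (x i) := (io_apply hd f i t).symm
    rw [hA, hB]
    set A := (io hd (F a)).op t (x i) with hAdef
    set B := V.op t (x i) with hBdef
    have hAn : ‖A‖ = ‖x i‖ := io_norm hd (F a) t (x i)
    have hBn : ‖B‖ = ‖x i‖ := io_norm hd f t (x i)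
    have h1 : ‖A - B‖ ^ 2 = 2 * (⟪B - A, B⟫_ℂ).re := by
      rw [norm_sub_sq (𝕜 := ℂ), hAn, hBn, inner_sub_left, Complex.sub_re]
      have e1 : (⟪B, B⟫_ℂ).re = ‖x i‖ ^ 2 := by
        rw [← hBn]; exact inner_self_eq_norm_sq (𝕜 := ℂ) B
      have e2 : RCLike.re ⟪A, B⟫_ℂ = (⟪A, B⟫_ℂ).re := rfl
      rw [e1, e2]; ring
    have h2 : (⟪B - A, B⟫_ℂ).re ≤ ‖⟪A - B, x j⟫_ℂ‖ + ‖A - B‖ * δ := by
      have h3 : ⟪B - A, B⟫_ℂ = -⟪A - B, x j⟫_ℂ - ⟪A - B, B - x j⟫_ℂ := by
        rw [inner_sub_right, ← neg_sub A B, inner_neg_left]; ring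
      calc (⟪B - A, B⟫_ℂ).re ≤ ‖⟪B - A, B⟫_ℂ‖ := Complex.re_le_norm _
        _ ≤ ‖⟪A - B, x j⟫_ℂ‖ + ‖⟪A - B, B - x j⟫_ℂ‖ := by
            rw [h3]
            refine (norm_sub_le _ _).trans ?_
            rw [norm_neg]
        _ ≤ ‖⟪A - B, x j⟫_ℂ‖ + ‖A - B‖ * δ := by
            gcongr
            refine (norm_inner_le_norm _ _).trans ?_
            gcongr
            rw [dist_eq_norm] at hj
            exact hj.le
    have h4 : ‖⟪A - B, x j⟫_ℂ‖ < ε ^ 2 / 4 := by
      refine lt_of_le_of_lt ?_ (ha j hjJ)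
      exact le_supDiff ht.2 (x i) (x j) (io hd (F a)) V
    have h5 : ‖A - B‖ ≤ 2 * ‖x i‖ := by
      calc ‖A - B‖ ≤ ‖A‖ + ‖B‖ := norm_sub_le _ _
        _ = _ := by rw [hAn, hBn]; ring
    have h6 : ‖A - B‖ * δ ≤ ε ^ 2 / 4 := by
      calc ‖A - B‖ * δ ≤ (2 * (‖x i‖ + 1)) * δ := by gcongr; linarith
        _ = ε ^ 2 / 4 := by rw [hδ]; field_simp; norm_num
    have h7 : ‖A - B‖ ^ 2 < ε ^ 2 := by linarith
    exact lt_of_pow_lt_pow_left₀ 2 hε.le h7

theorem io_inducing {x : ℕ → H} (hx : ∀ j, x j ≠ 0) (hd : Dense (range x)) :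
    letI := metricSpace x hx hd
    Topology.IsInducing (io hd : YY x → ContractionSemigroup H) := by
  letI := metricSpace x hx hd
  rw [Topology.isInducing_iff_nhds]
  intro f
  have hdist : ∀ T S : ContractionSemigroup H, dist T S = dd x T S := fun _ _ => rfl
  apply le_antisymm
  · rw [← tendsto_iff_comap, tendsto_iff_dist_tendsto_zero]
    simp only [hdist]
    exact (tendsto_io hx hd (F := fun g => g)).1 tendsto_id
  · have h1 : Tendsto (io hd) (comap (io hd) (𝓝 (io hd f))) (𝓝 (io hd f)) := tendsto_comap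
    rw [tendsto_iff_dist_tendsto_zero] at h1
    simp only [hdist] at h1
    exact (tendsto_io hx hd (F := fun g => g)).2 h1

theorem io_dense [TopologicalSpace.SeparableSpace H] (hH : ¬ FiniteDimensional ℂ H)
    {x : ℕ → H} (hx : ∀ j, x j ≠ 0) (hd : Dense (range x)) :
    letI := metricSpace x hx hd
    DenseRange (io hd : YY x → ContractionSemigroup H) := by
  letI := metricSpace x hx hd
  have hdist : ∀ T S : ContractionSemigroup H, dist T S = dd x T S := fun _ _ => rfl
  intro T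
  -- approximating sequence
  have hS : ∀ k : ℕ, ∃ S : ContractionSemigroup H, (∀ t y, ‖S.op t y‖ = ‖y‖) ∧
      ∀ t, ∀ i < k, ∀ j < k, ⟪S.op t (x i), x j⟫_ℂ = ⟪T.op t (x i), x j⟫_ℂ := by
    intro k
    set F : Submodule ℂ H := Submodule.span ℂ (x '' (Set.Iio k)) with hF
    have : FiniteDimensional ℂ F :=
      FiniteDimensional.span_of_finite ℂ ((Set.finite_Iio k).image x)
    obtain ⟨S, h1, h2⟩ := exists_isometric hH T F
    exact ⟨S, h1, fun t i hi j hj => h2 t _ (Submodule.subset_span ⟨i, hi, rfl⟩) _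
      (Submodule.subset_span ⟨j, hj, rfl⟩)⟩
  choose S hS1 hS2 using hS
  have hlim : Tendsto S atTop (𝓝 T) := by
    rw [tendsto_iff_dist_tendsto_zero]
    simp only [hdist]
    rw [tendsto_iff hx]
    intro n i j
    apply tendsto_const_nhds.congr'
    filter_upwards [eventually_gt_atTop (max i j)] with k hk
    have hi : i < k := lt_of_le_of_lt (le_max_left _ _) hk
    have hj : j < k := lt_of_le_of_lt (le_max_right _ _) hk
    apply le_antisymm (supDiff_nonneg _ _ _ _ _)
    apply supDiff_le_of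
    intro t _
    rw [_root_.sub_apply, inner_sub_left, hS2 k t i hi j hj, sub_self, norm_zero]
  refine mem_closure_of_tendsto hlim (Eventually.of_forall fun k => ?_)
  obtain ⟨f, hf⟩ := io_surj hd (S k) (hS1 k)
  exact ⟨f, hf⟩

theorem baire [TopologicalSpace.SeparableSpace H] (hH : ¬ FiniteDimensional ℂ H)
    {x : ℕ → H} (hx : ∀ j, x j ≠ 0) (hd : Dense (range x)) :
    letI := metricSpace x hx hd
    BaireSpace (ContractionSemigroup H) := by
  letI := metricSpace x hx hd
  have hc : IsClosed (YY x) := YY_closed x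
  have : CompleteSpace (YY x) := hc.completeSpace_coe
  exact baire_of_inducing _ (io_inducing hx hd) (io_dense hH hx hd)

end Pool.Agent.Sx28.CS
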